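import Pool.Agent.H27.Fremlin.CubeProj
import Pool.Agent.H27.Fremlin.Tensor
import Pool.Agent.H27.Fremlin.Transfer

/-!
# A Fremlin tensor product of two projective Banach lattices which is not projective

For a set `A` let `X_A` be `C([0,1]^A)` with the lattice norm
`‖f‖ = inf {λ₀ + ∑ λ_a : |f| ≤ λ₀ + ∑ λ_a (2 s_a)}`, where the `s_a` are the coordinates. It is
projective and the function `1` is a (strong) order unit. We show that the Fremlin tensor product
of `X_ℕ` and `X_(ℕ → ℕ)` is not projective.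

The tensor product is `C([0,1]^ℕ × [0,1]^(ℕ → ℕ))` with the norm generated by the products of the
generators. Map it to `ℓ_∞(ℕ × ℕ) / c₀(ℕ × ℕ)` by `2 s_a ⊗ 1 ↦` indicator of the column `a`,
`1 ⊗ 2 t_b ↦` indicator of `{(a, k) : k ≤ b a}`, `1 ⊗ 1 ↦ 1/2`. Since the product of a column and
of the region below a graph is finite, this lattice homomorphism has norm at most one. A diagonal
argument with a function `b` which dominates the moduli of convergence of the columns shows that
it has no positive lifting of norm less than `3/2`.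
-/

namespace Pool.Agent.Results.MP_11a8c1_an.TensorNotProjective

open Pool.Agent.H27.Fremlin BoundedContinuousFunction

/-- the bounded double sequences -/
abbrev Zinf := ℕ × ℕ →ᵇ ℝ

instance : IsOrderedModule ℝ Zinf where
  smul_le_smul_of_nonneg_left _ hc _ _ h := fun p => mul_le_mul_of_nonneg_left (h p) hc
  smul_le_smul_of_nonneg_right _ hf _ _ h := fun p => mul_le_mul_of_nonneg_right h (hf p)

noncomputable instance : BanachLattice Zinf where

/-- the ideal of double sequences tending to zero -/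
def c0 : Submodule ℝ Zinf where
  carrier := {z | ∀ ε : ℝ, 0 < ε → {p | ε ≤ |z p|}.Finite}
  add_mem' {x y} hx hy ε hε := by
    refine ((hx (ε / 2) (half_pos hε)).union (hy (ε / 2) (half_pos hε))).subset fun p hp => ?_
    simp only [Set.mem_union, Set.mem_ofPred_eq] at hp ⊢
    by_contra hcon
    rw [not_or, not_le, not_le] at hcon
    have := abs_add_le (x p) (y p)
    have h2 : (x + y) p = x p + y p := rfl
    rw [h2] at hp
    linarith [hcon.1, hcon.2]
  zero_mem' ε hε := by
    convert Set.finite_empty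
    ext p
    simp [hε]
  smul_mem' c z hz ε hε := by
    refine (hz (ε / (|c| + 1)) (by positivity)).subset fun p hp => ?_
    simp only [Set.mem_ofPred_eq] at hp ⊢
    have h2 : (c • z) p = c * z p := rfl
    rw [h2, abs_mul] at hp
    rw [div_le_iff₀ (by positivity)]
    have := abs_nonneg (z p)
    nlinarith

lemma c0_ideal : IsClosedIdeal c0 := by
  constructor
  · rw [← closure_subset_iff_isClosed]
    intro z hz ε hε
    obtain ⟨y, hy, hzy⟩ := Metric.mem_closure_iff.mp hz (ε / 2) (half_pos hε)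
    refine (hy (ε / 2) (half_pos hε)).subset fun p hp => ?_
    simp only [Set.mem_ofPred_eq] at hp ⊢
    rw [dist_eq_norm] at hzy
    have h1 := (z - y).norm_coe_le_norm p
    have h2 : (z - y) p = z p - y p := rfl
    rw [h2, Real.norm_eq_abs] at h1
    have h3 := abs_sub_abs_le_abs_sub (z p) (y p)
    linarith
  · intro x hx y hy ε hε
    refine (hx ε hε).subset fun p hp => ?_
    simp only [Set.mem_ofPred_eq] at hp ⊢
    have h1 : |y p| ≤ |x p| := hy p
    linarith

/-- the first factor -/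
abbrev GX : GaugeSet (Cube ℕ) := cubeGauge ℕ 2

/-- the second factor -/
abbrev GY : GaugeSet (Cube (ℕ → ℕ)) := cubeGauge (ℕ → ℕ) 2

/-- the point of the first cube attached to the column `a` -/
def pA (a : ℕ) : Cube ℕ := fun a' => if a' = a then 1 else 0

/-- the point of the second cube attached to `(a, k)` -/
def pB (a k : ℕ) : Cube (ℕ → ℕ) := fun b => if k ≤ b a then 1 else 0

/-- the evaluation map -/
noncomputable def ev : C(Cube ℕ × Cube (ℕ → ℕ), ℝ) →ₗ[ℝ] Zinf where
  toFun w := BoundedContinuousFunction.ofNormedAddCommGroupDiscrete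
    (fun p => 1 / 2 * w (pA p.1, pB p.1 p.2)) ‖w‖ (fun p => by
      rw [norm_mul]
      have := w.norm_coe_le_norm (pA p.1, pB p.1 p.2)
      have h2 : ‖(1 / 2 : ℝ)‖ = 1 / 2 := by norm_num
      rw [h2]
      linarith [norm_nonneg (w (pA p.1, pB p.1 p.2))])
  map_add' f g := by ext p; simp; ring
  map_smul' c f := by ext p; simp; ring

lemma ev_apply (w : C(Cube ℕ × Cube (ℕ → ℕ), ℝ)) (p : ℕ × ℕ) :
    ev w p = 1 / 2 * w (pA p.1, pB p.1 p.2) := rfl

lemma ev_sup (f g : C(Cube ℕ × Cube (ℕ → ℕ), ℝ)) : ev (f ⊔ g) = ev f ⊔ ev g := by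
  ext p
  have h1 : (ev f ⊔ ev g) p = max (ev f p) (ev g p) := rfl
  rw [h1, ev_apply, ev_apply, ev_apply, ContinuousMap.sup_apply,
    ← mul_max_of_nonneg _ _ (by norm_num : (0 : ℝ) ≤ 1 / 2)]

lemma ev_inf (f g : C(Cube ℕ × Cube (ℕ → ℕ), ℝ)) : ev (f ⊓ g) = ev f ⊓ ev g := by
  ext p
  have h1 : (ev f ⊓ ev g) p = min (ev f p) (ev g p) := rfl
  rw [h1, ev_apply, ev_apply, ev_apply, ContinuousMap.inf_apply,
    ← mul_min_of_nonneg _ _ (by norm_num : (0 : ℝ) ≤ 1 / 2)]

/-- the images of the generators of the unit ball are at most one off a finite set -/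
lemma ev_gen {u : C(Cube ℕ × Cube (ℕ → ℕ), ℝ)} (hu : u ∈ (prodGauge GX GY).D) :
    {p | 1 < ev u p}.Finite := by
  have hconv : Convex ℝ {u : C(Cube ℕ × Cube (ℕ → ℕ), ℝ) | {p | 1 < ev u p}.Finite} := by
    intro f hf g hg a b ha hb hab
    refine (Set.Finite.union hf hg).subset fun p hp => ?_
    simp only [Set.mem_union, Set.mem_ofPred_eq] at hp ⊢
    by_contra hcon
    rw [not_or, not_lt, not_lt] at hcon
    have h2 : ev (a • f + b • g) p = a * ev f p + b * ev g p := by
      rw [map_add, map_smul, map_smul]; rfl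
    rw [h2] at hp
    have h3 := mul_le_mul_of_nonneg_left hcon.1 ha
    have h4 := mul_le_mul_of_nonneg_left hcon.2 hb
    linarith
  refine convexHull_min ?_ hconv hu
  rintro _ ⟨h, hh, k, hk, rfl⟩
  have hconv1 : Convex ℝ {h : C(Cube ℕ, ℝ) | {p | 1 < ev (tens h k) p}.Finite} :=
    hconv.linear_preimage ((tensL (K := Cube ℕ) (L := Cube (ℕ → ℕ))).flip k)
  refine convexHull_min ?_ hconv1 hh
  intro h hh
  have hconv2 : Convex ℝ {k : C(Cube (ℕ → ℕ), ℝ) | {p | 1 < ev (tens h k) p}.Finite} :=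
    hconv.linear_preimage (tensL (K := Cube ℕ) (L := Cube (ℕ → ℕ)) h)
  refine convexHull_min ?_ hconv2 hk
  intro k hk
  show {p | 1 < ev (tens h k) p}.Finite
  rcases hh with rfl | ⟨a, rfl⟩ <;> rcases hk with rfl | ⟨b, rfl⟩
  · convert Set.finite_empty
    ext p
    simp only [ev_apply, tens_apply, ContinuousMap.one_apply, Set.mem_ofPred_eq,
      Set.mem_empty_iff_false, iff_false, not_lt]
    norm_num
  · convert Set.finite_empty
    ext p
    simp only [ev_apply, tens_apply, ContinuousMap.one_apply, ContinuousMap.smul_apply,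
      smul_eq_mul, Set.mem_ofPred_eq, Set.mem_empty_iff_false, iff_false, not_lt]
    have := coord_le_one b (pB p.1 p.2)
    push_cast
    linarith
  · convert Set.finite_empty
    ext p
    simp only [ev_apply, tens_apply, ContinuousMap.one_apply, ContinuousMap.smul_apply,
      smul_eq_mul, Set.mem_ofPred_eq, Set.mem_empty_iff_false, iff_false, not_lt]
    have := coord_le_one a (pA p.1)
    push_cast
    linarith
  · refine (Set.finite_Iic (b a)).image (fun k => (a, k)) |>.subset ?_
    rintro ⟨a', k⟩ hp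
    simp only [ev_apply, tens_apply, ContinuousMap.smul_apply, smul_eq_mul, coord_apply, pA, pB,
      Set.mem_ofPred_eq] at hp
    by_cases h1 : a = a'
    · subst h1
      by_cases h2 : k ≤ b a
      · exact ⟨k, h2, rfl⟩
      · rw [if_neg h2] at hp
        norm_num at hp
    · rw [if_neg h1] at hp
      norm_num at hp

/-- the product gauge -/
abbrev GXY : GaugeSet (Cube ℕ × Cube (ℕ → ℕ)) := prodGauge GX GY

/-- the norm of the class of `ev w` -/
lemma norm_ev_le (w : C(Cube ℕ × Cube (ℕ → ℕ), ℝ)) :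
    ‖(Submodule.Quotient.mk (ev w) : Zinf ⧸ c0)‖ ≤ gnorm GXY w := by
  refine le_of_forall_pos_le_add fun ε hε => ?_
  obtain ⟨r, hr, hr', h, hh, hw⟩ := exists_of_gnorm_lt
    (show gnorm GXY w < gnorm GXY w + ε by linarith)
  let y : Zinf := (ev w ⊓ BoundedContinuousFunction.const (ℕ × ℕ) r) ⊔
    BoundedContinuousFunction.const (ℕ × ℕ) (-r)
  have hy : ∀ p, y p = max (min (ev w p) r) (-r) := fun p => rfl
  have h1 : ∀ p, |ev w p| ≤ r * ev h p := fun p => by
    rw [ev_apply, ev_apply, abs_mul, abs_of_nonneg (by norm_num : (0 : ℝ) ≤ 1 / 2)]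
    have := hw (pA p.1, pB p.1 p.2)
    linarith
  have h2 : ev w - y ∈ c0 := by
    intro δ hδ
    refine (ev_gen hh).subset fun p hp => ?_
    simp only [Set.mem_ofPred_eq] at hp ⊢
    by_contra hcon
    rw [not_lt] at hcon
    have h3 : |ev w p| ≤ r := (h1 p).trans (by
      calc r * ev h p ≤ r * 1 := mul_le_mul_of_nonneg_left hcon hr
        _ = r := mul_one r)
    have h4 := abs_le.mp h3
    have h5 : (ev w - y) p = ev w p - y p := rfl
    rw [h5, hy, min_eq_left h4.2, max_eq_left h4.1, sub_self, abs_zero] at hp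
    linarith
  have h3 : (Submodule.Quotient.mk (ev w) : Zinf ⧸ c0) = Submodule.Quotient.mk y :=
    (Submodule.Quotient.eq c0).mpr h2
  have h4 : ‖y‖ ≤ r := by
    rw [BoundedContinuousFunction.norm_le hr]
    intro p
    rw [hy, Real.norm_eq_abs, abs_le]
    exact ⟨le_max_right _ _, max_le (min_le_right _ _) (by linarith)⟩
  rw [h3]
  have h5 : ‖(Submodule.Quotient.mk y : Zinf ⧸ c0)‖ ≤ ‖y‖ := Submodule.Quotient.norm_mk_le c0 y
  linarith

/-- the lattice homomorphism without a lifting -/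
noncomputable def T : GC GXY →L[ℝ] Zinf ⧸ c0 :=
  LinearMap.mkContinuous (c0.mkQ ∘ₗ ev ∘ₗ (toC GXY : GC GXY →ₗ[ℝ] C(_, ℝ))) 1 (fun w => by
    rw [one_mul]; exact norm_ev_le (toC GXY w))

lemma T_apply (w : GC GXY) : T w = Submodule.Quotient.mk (ev (toC GXY w)) := rfl

lemma T_norm : ‖T‖ ≤ 1 := LinearMap.mkContinuous_norm_le _ zero_le_one _

lemma T_lattice : IsLatticeHomQuot T := by
  refine ⟨fun p q x y hp hq => ?_, fun p q x y hp hq => ?_⟩ <;>
    rw [T_apply, Submodule.Quotient.eq] at hp hq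
  · rw [T_apply, toC_sup, ev_sup, Submodule.Quotient.eq]
    intro ε hε
    refine ((hp ε hε).union (hq ε hε)).subset fun s hs => ?_
    simp only [Set.mem_union, Set.mem_ofPred_eq] at hs ⊢
    by_contra hcon
    rw [not_or, not_le, not_le] at hcon
    have h1 : (ev (toC GXY p) ⊔ ev (toC GXY q) - x ⊔ y) s =
      max (ev (toC GXY p) s) (ev (toC GXY q) s) - max (x s) (y s) := rfl
    have h2 : (ev (toC GXY p) - x) s = ev (toC GXY p) s - x s := rfl
    have h3 : (ev (toC GXY q) - y) s = ev (toC GXY q) s - y s := rfl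
    rw [h1] at hs
    rw [h2, h3] at hcon
    exact absurd (hs.trans (abs_max_sub_max_le_max _ _ _ _)) (not_le.mpr (max_lt hcon.1 hcon.2))
  · rw [T_apply, toC_inf, ev_inf, Submodule.Quotient.eq]
    intro ε hε
    refine ((hp ε hε).union (hq ε hε)).subset fun s hs => ?_
    simp only [Set.mem_union, Set.mem_ofPred_eq] at hs ⊢
    by_contra hcon
    rw [not_or, not_le, not_le] at hcon
    have h1 : (ev (toC GXY p) ⊓ ev (toC GXY q) - x ⊓ y) s =
      min (ev (toC GXY p) s) (ev (toC GXY q) s) - min (x s) (y s) := rfl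
    have h2 : (ev (toC GXY p) - x) s = ev (toC GXY p) s - x s := rfl
    have h3 : (ev (toC GXY q) - y) s = ev (toC GXY q) s - y s := rfl
    rw [h1] at hs
    rw [h2, h3] at hcon
    exact absurd (hs.trans (abs_min_sub_min_le_max _ _ _ _)) (not_le.mpr (max_lt hcon.1 hcon.2))

/-- `GC GXY` is not projective. -/
lemma not_projective : ¬ IsProjective (GC GXY) := by
  intro hP
  obtain ⟨L, hL, hLT, hLn⟩ := hP Zinf c0 c0_ideal T T_lattice (1 / 4) (by norm_num)
  have hL54 : ‖L‖ ≤ 5 / 4 := by
    have := T_norm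
    linarith
  -- the lifting is positive
  have hpos : ∀ w : GC GXY, 0 ≤ w → ∀ p, 0 ≤ L w p := by
    intro w hw p
    have h1 := hL.1 w 0
    rw [sup_eq_left.mpr hw, map_zero] at h1
    have h2 : L w p = max (L w p) 0 := congrArg (fun z : Zinf => z p) h1
    rw [h2]
    exact le_max_right _ _
  -- the lifting is close to the evaluation
  have hc : ∀ w : GC GXY, {p | (1 / 16 : ℝ) ≤ |L w p - ev (toC GXY w) p|}.Finite := by
    intro w
    have h1 := hLT w
    rw [T_apply, Submodule.Quotient.eq] at h1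
    exact h1 (1 / 16) (by norm_num)
  let e1 : GC GXY := toGC GXY 1
  let u : ℕ → GC GXY := fun a => toGC GXY (tens ((2 : ℝ) • coord a) 1)
  let v : (ℕ → ℕ) → GC GXY := fun b => toGC GXY (tens 1 ((2 : ℝ) • coord b))
  let w : ℕ → (ℕ → ℕ) → GC GXY := fun a b =>
    toGC GXY (tens ((2 : ℝ) • coord a) ((2 : ℝ) • coord b))
  -- the function dominating the moduli of convergence
  have hex : ∀ a : ℕ, ∃ k : ℕ, |L e1 (a, k) - 1 / 2| < 1 / 16 ∧ |L (u a) (a, k) - 1| < 1 / 16 := by
    intro a
    have hinj : Function.Injective fun k : ℕ => (a, k) := fun k k' h => (Prod.mk.inj h).2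
    have h1 := (hc e1).preimage (f := fun k : ℕ => (a, k)) hinj.injOn
    have h2 := (hc (u a)).preimage (f := fun k : ℕ => (a, k)) hinj.injOn
    obtain ⟨k, hk⟩ := (h1.union h2).infinite_compl.nonempty
    refine ⟨k, ?_⟩
    simp only [Set.mem_compl_iff, Set.mem_union, Set.mem_preimage, Set.mem_ofPred_eq, not_or,
      not_le] at hk
    have h3 : ev (toC GXY e1) (a, k) = 1 / 2 := by
      rw [ev_apply]
      simp [e1]
    have h4 : ev (toC GXY (u a)) (a, k) = 1 := by
      rw [ev_apply]
      simp [u, coord_apply, pA]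
    rw [h3, h4] at hk
    exact hk
  choose κ hκ1 hκ2 using hex
  -- a column where the second factor is good
  obtain ⟨a, ha⟩ : ∃ a : ℕ, |L (v κ) (a, κ a) - 1| < 1 / 16 := by
    have hinj : Function.Injective fun a : ℕ => (a, κ a) := fun k k' h => (Prod.mk.inj h).1
    have h1 := (hc (v κ)).preimage (f := fun a : ℕ => (a, κ a)) hinj.injOn
    obtain ⟨a, ha⟩ := h1.infinite_compl.nonempty
    refine ⟨a, ?_⟩
    simp only [Set.mem_compl_iff, Set.mem_preimage, Set.mem_ofPred_eq, not_le] at ha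
    have h4 : ev (toC GXY (v κ)) (a, κ a) = 1 := by
      rw [ev_apply]
      simp [v, coord_apply, pB]
    rwa [h4] at ha
  have hw : 0 ≤ (4 : ℝ) • e1 - (2 : ℝ) • u a - (2 : ℝ) • v κ + w a κ := by
    rw [toC_nonneg]
    intro s
    have h1 := coord_le_one a s.1
    have h2 := coord_le_one κ s.2
    simp only [e1, u, v, w, map_add, map_sub, map_smul, toC_toGC, ContinuousMap.add_apply,
      ContinuousMap.sub_apply, ContinuousMap.smul_apply, ContinuousMap.one_apply, tens_apply,
      smul_eq_mul]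
    nlinarith [mul_nonneg (sub_nonneg.mpr h1) (sub_nonneg.mpr h2)]
  have h1 := hpos _ hw (a, κ a)
  have h2 : L ((4 : ℝ) • e1 - (2 : ℝ) • u a - (2 : ℝ) • v κ + w a κ) (a, κ a) =
      4 * L e1 (a, κ a) - 2 * L (u a) (a, κ a) - 2 * L (v κ) (a, κ a) + L (w a κ) (a, κ a) := by
    rw [map_add, map_sub, map_sub, map_smul, map_smul, map_smul]
    rfl
  rw [h2] at h1
  have hwn : ‖w a κ‖ ≤ 1 := by
    show gnorm GXY _ ≤ 1
    refine (gnorm_tens_le _ _).trans ?_
    have g1 : gnorm GX ((2 : ℝ) • coord a) ≤ 1 :=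
      gnorm_mem_le (subset_convexHull ℝ _ (Or.inr ⟨a, by norm_num⟩))
    have g2 : gnorm GY ((2 : ℝ) • coord κ) ≤ 1 :=
      gnorm_mem_le (subset_convexHull ℝ _ (Or.inr ⟨κ, by norm_num⟩))
    calc _ ≤ (1 : ℝ) * 1 := mul_le_mul g1 g2 (gnorm_nonneg _) zero_le_one
      _ = 1 := mul_one 1
  have h3 : L (w a κ) (a, κ a) ≤ 5 / 4 := by
    have g1 : |L (w a κ) (a, κ a)| ≤ ‖L (w a κ)‖ := (L (w a κ)).norm_coe_le_norm _
    have g2 := L.le_opNorm (w a κ)
    have g3 : ‖L‖ * ‖w a κ‖ ≤ 5 / 4 * 1 :=
      mul_le_mul hL54 hwn (norm_nonneg _) (by norm_num)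
    have g4 := le_abs_self (L (w a κ) (a, κ a))
    linarith
  have h4 := (abs_lt.mp (hκ1 a)).2
  have h5 := (abs_lt.mp (hκ2 a)).1
  have h6 := (abs_lt.mp ha).1
  linarith

/-- **Answer to Q1 (Buskes): no.** There are projective Banach lattices `X` and `Y`, each having
a topological order unit, whose Fremlin tensor product (which exists, and is unique up to
isometric lattice isomorphism) is not projective. -/
theorem result : ∃ (X Y : Type) (_ : BanachLattice X) (_ : BanachLattice Y),
    IsProjective X ∧ IsProjective Y ∧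
    (∃ e : X, IsTopologicalOrderUnit e) ∧ (∃ e : Y, IsTopologicalOrderUnit e) ∧
    (∃ (F : Type) (_ : BanachLattice F) (t : X × Y → F), IsFremlinTensor t) ∧
    ∀ (F : Type) [BanachLattice F] (t : X × Y → F), IsFremlinTensor t → ¬ IsProjective F := by
  refine ⟨GC GX, GC GY, inferInstance, inferInstance, cube_isProjective ℕ (by norm_num),
    cube_isProjective (ℕ → ℕ) (by norm_num), ⟨_, one_isTopologicalOrderUnit _⟩,
    ⟨_, one_isTopologicalOrderUnit _⟩, ⟨GC GXY, inferInstance, fun p => tB GX GY p.1 p.2,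
      (isFremlinCurried GX GY).toUncurried⟩,
    fun F _ t ht hF => ?_⟩
  obtain ⟨ψ, rfl⟩ := exists_curried ht.1.1
  obtain ⟨S, R, hS, hR, -, h2, hS1, hR1⟩ := ht.toCurried.unique (isFremlinCurried GX GY)
  exact not_projective (hF.transfer S R hR hS h2 hS1 hR1)

end Pool.Agent.Results.MP_11a8c1_an.TensorNotProjective
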